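import Pool.Agent.H8.CF.Quad
import Pool.Graph.R_pool_sql_team_seeded_620a6dc7.H865_cl.Conn

/-!
# Coarse preservation of Lorentzian separations and smooth structures on `S¹ × S³` and `S¹ ×~ S³`

Let `Z` be one of the two topological 4-manifolds `S¹ × S³` and `S¹ ×~ S³` (the twisted product, as the unit sphere
bundle of the sum of the Moebius line bundle and a trivial bundle of rank three). Its Euler characteristic is zero, so
that smooth manifolds homeomorphic to `Z` have Lorentz metrics. Let `M` and `N` be smooth 4-manifolds homeomorphic to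
`Z`, and let `e : M → ℝᵐ` and `j : N → ℝᵏ` be injective immersions. Let `h` be a semi-Riemannian metric of `M` of any
signature, for instance a Lorentz metric, given by a continuous family of symmetric bilinear forms `h x` on `ℝᵐ` (`x ∈ M`;
only the restrictions to the tangent spaces matter in the limit). The number `h y (e u - e w) (e u - e w)` for `y`, `u`,
`w` near each other is the squared separation of the nearby points `u` and `w`, positive, zero or negative. Let `S` be a
set of scales which contains arbitrarily small positive numbers; it may be a sequence which tends to zero arbitrarily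
fast.

Let `g : M → N` be a homeomorphism, or any continuous map with a right homotopy inverse, and suppose that at each point
`x` at which `g` is not a local diffeomorphism there are `l > 0` and `ε < (π / 8) l` such that

* the form `h x` is nondegenerate on the tangent space `T` of `e (M)` at `e x`, with constant `l`: for each `p ∈ T` there
  is `a ∈ T` with `|a| ≤ 1` and `h x p a ≥ l |p|` (one can take `l = 1` if `h x` is the metric of Minkowski in an
  orthonormal basis of `T`);
* near `x` the squared separations are coarsely preserved: for the `y` near `x` and the small `s ∈ S` there is a bilinear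
  form `β` on `ℝᵏ` such that for all `u`, `w` near `x` at distance `≤ s` from `y` the number `β (f u - f w) (f u - f w)`
  (`f = j ∘ g`) differs from `h y (e u - e w) (e u - e w)` by at most `ε s²`, and
  `|β| |f u - f y| |f w - f y| ≤ C s²`.

For instance `g` may be Lipschitz near `x` and `β` a multiple of the value at `g y` of a Lorentz metric of `N`; the factor
may depend on `y` and `s`, so that `g` may be coarsely conformal.

Then `g` is a uniform limit of diffeomorphisms from `M` onto `N` which agree with `g` outside any given neighbourhood of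
the set of the points at which `g` is not a local diffeomorphism. In particular `M` and `N` are diffeomorphic.

For Riemannian metrics the condition compares distances, as in the results of the library. For indefinite metrics it
says nothing about the distances of pairs of points: separations can be zero for points which are far from each other,
and a map which preserves them can be as far from an isometry for the metrics of `ℝᵐ` and `ℝᵏ` as it likes (boosts; the
constant `C` is arbitrary).

The proof. By polarization the bilinear forms are preserved up to `(3 / 2) ε s²`. The form has a dual vector for each unit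
tangent vector `v`, of length at most `1 / l`; a point `w` at distance almost `s` from `y` in this direction gives the
linear functional `p ↦ β (p - f y) (f w - f y) / (s l)` (symmetrized), which recovers the coordinate in the direction
`v` in the ball of radius `s` about `y` up to `(3 / 2) (ε / l) s`. By a theorem of the library
(`H865_cl.closed_main`, the engine of `MP_6db3ee_gt.CoarselyAffine`) such maps are limits of diffeomorphisms.
-/

set_option autoImplicit false

open Set Filter Topology Metric Function
open scoped Manifold ContDiff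

noncomputable section

namespace Pool.Agent.Results.MP_6db3ee_gt.LorentzSeparations

/-- `ℝ⁴` -/
abbrev R4 : Type := EuclideanSpace ℝ (Fin 4)

/-- the product `S¹ × S³` -/
abbrev Prod13 : Type := Circle × Metric.sphere (0 : R4) 1

/-- the twisted product: the unit sphere bundle of the sum of the Moebius line bundle over the
circle (the line over `p` consists of the `z` with `z ^ 2 = |z| ^ 2 p`) and a trivial bundle of
rank three -/
abbrev Twisted13 : Type := {p : ℂ × ℂ × EuclideanSpace ℝ (Fin 3) //
  ‖p.1‖ = 1 ∧ p.2.1 ^ 2 = ((‖p.2.1‖ ^ 2 : ℝ) : ℂ) * p.1 ∧ ‖p.2.1‖ ^ 2 + ‖p.2.2‖ ^ 2 = 1}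

/-- both spaces are homeomorphic to `S¹ × S³`, or both are homeomorphic to `S¹ ×~ S³` -/
def SameModel (M N : Type) [TopologicalSpace M] [TopologicalSpace N] : Prop :=
  (Nonempty (M ≃ₜ Prod13) ∧ Nonempty (N ≃ₜ Prod13)) ∨ (Nonempty (M ≃ₜ Twisted13) ∧ Nonempty (N ≃ₜ Twisted13))

/-- the set of scales contains arbitrarily small positive numbers -/
def SmallScales (S : Set ℝ) : Prop := ∀ δ : ℝ, 0 < δ → ∃ s ∈ S, 0 < s ∧ s < δ

/-- the bilinear forms on `ℝᵐ` -/
abbrev Form (m : ℕ) : Type := EuclideanSpace ℝ (Fin m) →L[ℝ] EuclideanSpace ℝ (Fin m) →L[ℝ] ℝ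

section defs

variable {M N : Type} [TopologicalSpace M] [TopologicalSpace N] {m k : ℕ}

/-- `f` is a local diffeomorphism at `x` (of class `C^∞`, with smooth inverse) -/
def LocDiff [ChartedSpace R4 M] [ChartedSpace R4 N] (f : M → N) (x : M) : Prop :=
  IsLocalDiffeomorphAt (𝓡 4) (𝓡 4) ∞ f x

/-- `e` is a smooth immersion at `x`: in a smooth parametrization `A` of a neighbourhood of `x = A 0` (a local
diffeomorphism at `0`) it is smooth near `0` with an injective derivative at `0`. -/
def IsImmersed [ChartedSpace R4 M] (e : M → EuclideanSpace ℝ (Fin m)) (x : M) : Prop :=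
  ∃ A : R4 → M, A 0 = x ∧ LocDiff A 0 ∧
    (∀ᶠ z in 𝓝 (0 : R4), ContDiffAt ℝ ∞ (fun z => e (A z)) z) ∧ Injective (fderiv ℝ (fun z => e (A z)) 0)

/-- `e` is a continuous injective immersion -/
def IsEmb [ChartedSpace R4 M] (e : M → EuclideanSpace ℝ (Fin m)) : Prop :=
  Continuous e ∧ Injective e ∧ ∀ x, IsImmersed e x

/-- `g` has a right homotopy inverse -/
def HasRightHomotopyInverse (g : C(M, N)) : Prop := ∃ r : C(N, M), (g.comp r).Homotopic (ContinuousMap.id N)

/-- the tangent space of `e (M)` at `e x`: the values of the derivatives at `0` of `e ∘ A`, where `A` is a smooth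
parametrization of a neighbourhood of `x = A 0` -/
def Tangent [ChartedSpace R4 M] (e : M → EuclideanSpace ℝ (Fin m)) (x : M) : Set (EuclideanSpace ℝ (Fin m)) :=
  {p | ∃ (A : R4 → M) (v : R4), A 0 = x ∧ LocDiff A 0 ∧ fderiv ℝ (fun z => e (A z)) 0 v = p}

/-- `B` is nondegenerate on the tangent space at `x`, with constant `l` -/
def Nondegenerate [ChartedSpace R4 M] (e : M → EuclideanSpace ℝ (Fin m)) (B : Form m) (l : ℝ) (x : M) : Prop :=
  ∀ p ∈ Tangent e x, ∃ a ∈ Tangent e x, ‖a‖ ≤ 1 ∧ l * ‖p‖ ≤ B p a

/-- `h` is a continuous family of symmetric bilinear forms -/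
def IsMetric (h : M → Form m) : Prop := Continuous h ∧ ∀ x p q, h x p q = h x q p

/-- The squared separations of the points near `x` are preserved up to `ε s ^ 2` at the scales `s ∈ S`: for all `y` near
`x` and all small `s ∈ S` there is a bilinear form `β` with
`|β (f u - f w) (f u - f w) - h y (e u - e w) (e u - e w)| ≤ ε s ^ 2` and `‖β‖ ‖f u - f y‖ ‖f w - f y‖ ≤ C s ^ 2` for
the `u`, `w` near `x` with `‖e u - e y‖ ≤ s` and `‖e w - e y‖ ≤ s`. -/
def SeparationsPreservedAt (e : M → EuclideanSpace ℝ (Fin m)) (h : M → Form m) (f : M → EuclideanSpace ℝ (Fin k))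
    (S : Set ℝ) (ε : ℝ) (x : M) : Prop :=
  ∃ U ∈ 𝓝 x, ∃ r : ℝ, 0 < r ∧ ∃ C : ℝ, ∀ y ∈ U, ∀ s ∈ S, 0 < s → s < r → ∃ β : Form k,
    ∀ u ∈ U, ∀ w ∈ U, ‖e u - e y‖ ≤ s → ‖e w - e y‖ ≤ s →
      |β (f u - f w) (f u - f w) - h y (e u - e w) (e u - e w)| ≤ ε * s ^ 2 ∧
        ‖β‖ * (‖f u - f y‖ * ‖f w - f y‖) ≤ C * s ^ 2

end defs

/-- Let `M` and `N` be smooth 4-manifolds, both homeomorphic to `S¹ × S³` or both to the twisted product, and `h` a
semi-Riemannian metric of `M` of any signature. A continuous map `g : M → N` with a right homotopy inverse, which at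
each point is a local diffeomorphism or coarsely preserves the squared separations, is a uniform limit of
diffeomorphisms. -/
theorem result (M N : Type) [TopologicalSpace M] [TopologicalSpace N] [ChartedSpace R4 M] [ChartedSpace R4 N]
    [IsManifold (𝓡 4) ∞ M] [IsManifold (𝓡 4) ∞ N] (hMN : SameModel M N)
    -- the maps which measure distances in `M` and `N`, the metric `h`, and the set of scales
    (m k : ℕ) (e : M → EuclideanSpace ℝ (Fin m)) (he : IsEmb e) (j : N → EuclideanSpace ℝ (Fin k)) (hj : IsEmb j)
    (h : M → Form m) (hh : IsMetric h) (S : Set ℝ) (hS : SmallScales S)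
    -- the map `g`
    (g : C(M, N)) (hg : HasRightHomotopyInverse g)
    (hc : ∀ x, LocDiff g x ∨ ∃ l ε : ℝ, 0 < l ∧ ε < Real.pi / 8 * l ∧ Nondegenerate e (h x) l x ∧
      SeparationsPreservedAt e h (fun x => j (g x)) S ε x)
    -- a neighbourhood of the set of the bad points
    (O : Set M) (hO : IsOpen O) (hbad : ∀ x, ¬ LocDiff g x → x ∈ O) (θ : ℝ) (hθ : 0 < θ) :
    ∃ Φ : Diffeomorph (𝓡 4) (𝓡 4) M N ∞, (∀ x, ‖j (Φ x) - j (g x)‖ < θ) ∧ ∀ x, x ∉ O → Φ x = g x := by
  obtain ⟨he, hei, he'⟩ := he
  obtain ⟨hj, hji, hj'⟩ := hj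
  obtain ⟨r, hr⟩ := hg
  have hM : T2Space M ∧ CompactSpace M ∧ ConnectedSpace M ∧ T2Space N ∧ CompactSpace N := by
    rcases hMN with ⟨⟨a⟩, ⟨b⟩⟩ | ⟨⟨a⟩, ⟨b⟩⟩
    · have := Pool.Agent.H865_cl.p13_conn
      exact ⟨a.symm.t2Space, a.symm.compactSpace, a.symm.surjective.connectedSpace a.symm.continuous,
        b.symm.t2Space, b.symm.compactSpace⟩
    · have := Pool.Agent.H865_cl.t13_conn
      have := Pool.Agent.H865_cl.t13_compact
      exact ⟨a.symm.t2Space, a.symm.compactSpace, a.symm.surjective.connectedSpace a.symm.continuous,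
        b.symm.t2Space, b.symm.compactSpace⟩
  obtain ⟨h1, h2, h3, h4, h5⟩ := hM
  refine Pool.Agent.H865_cl.closed_main 3 m k M N e he hei he' j hj hji hj' g r hr S hS (fun x hx => ?_) O hO hbad θ hθ
  rw [Pool.Agent.H865_small.const_four]
  rcases hc x with h | ⟨l, ε, hl, hε, hnd, hp⟩
  · exact absurd h hx
  · obtain ⟨η, hη, hη1⟩ : ∃ η, max (3 / 2 * ε) 0 / l < η ∧ η < 3 * Real.pi / 16 := by
      refine exists_between ?_
      rw [div_lt_iff₀ hl]
      refine max_lt ?_ (by positivity)
      calc 3 / 2 * ε < 3 / 2 * (Real.pi / 8 * l) := by linarith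
        _ = 3 * Real.pi / 16 * l := by ring
    refine ⟨η, hη1, Or.inl ?_⟩
    refine Pool.Agent.H8.CF.cct_of_bilin (n := 4) (δ := max (3 / 2 * ε) 0) (he' x) hh.1.continuousAt hl hnd
      (le_max_right _ _) ((div_lt_iff₀ hl).1 hη) ?_
    obtain ⟨U, hU, r, hr, C, hP⟩ := Pool.Agent.H8.CF.pres_of_presQ hh.2 hp
    refine ⟨U, hU, r, hr, C, fun y hy s hs hs0 hsr => ?_⟩
    obtain ⟨β, hβ⟩ := hP y hy s hs hs0 hsr
    refine ⟨β, fun u hu w hw hus hws => ⟨(hβ u hu w hw hus hws).1.trans ?_, (hβ u hu w hw hus hws).2⟩⟩
    exact mul_le_mul_of_nonneg_right (le_max_left _ _) (by positivity)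

end Pool.Agent.Results.MP_6db3ee_gt.LorentzSeparations
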