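import Pool.Agent.H33.NC.Transfer
import Pool.Graph.R_pool_sql_team_seeded_620a6dc7.H865_cl.Conn

/-!
# Maps with nearly equilateral images of small triangles and smooth structures on `S¹ × S³` and `S¹ ×~ S³`

Let `X` be one of the two topological 4-manifolds `S¹ × S³` and `S¹ ×~ S³` (the twisted product, as the unit sphere
bundle of the sum of the Moebius line bundle and a trivial bundle of rank three), and let `M` and `N` be smooth
4-manifolds homeomorphic to `X`. Let `e : M → ℝᵐ` and `j : N → ℝᵏ` be injective immersions (by the embedding theorem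
of Nash all Riemannian metrics of `M` and `N` are induced by such maps) and let `g : M → N` be a continuous map with a
right homotopy inverse, for example a homeomorphism or a homotopy equivalence. Let `S` be a set of scales which
contains arbitrarily small positive numbers; it may be a sequence which tends to zero arbitrarily fast.

There is a universal constant `δ > 0` such that the following holds. Suppose that at each point `x` the map `g` is a
local diffeomorphism, or that it maps the small equilateral triangles near `x` with sides in `S` to nearly equilateral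
triangles:

* for some `τ > 0`, for all `s ∈ S` small enough and all `u`, `v`, `w` near `x` such that the three distances between
  them differ from `s` by at most `τ s`, one has `|g u - g v| < (1 + δ) |g u - g w|`.

Then `g` is a uniform limit of diffeomorphisms from `M` onto `N` which agree with `g` outside any given neighbourhood
of the set of the points at which `g` is not a local diffeomorphism. In particular `M` and `N` are diffeomorphic.

The condition says nothing about the sizes of the images of the triangles, and nothing about any distances other than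
those close to the numbers in the sparse set `S`. In particular it holds if the linear dilatation of `g`, as in the
metric definition of quasiconformal maps, is close to one for the radii in (neighbourhoods of) `S`. The map `g` need
not be differentiable or Lipschitz, and it is allowed to rotate forever at smaller and smaller scales.

The proof. In dimension at least three one can go from each point of the unit sphere to each other one by three steps
of length one on the sphere; so the condition on triangles implies that the images of the small spheres with radius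
in `S` are nearly round. Consider a sequence of such maps, with constants `δ` tending to zero, rescaled to the scale
one, in parametrizations of `M` and `N`. A limit along an ultrafilter maps each unit sphere around a point to a round
sphere around the image of the point, and so it multiplies the distance one by a constant. By the theorem of Beckman
and Quarles, which we prove in all dimensions `n ≥ 2`, it is a similarity; no continuity is needed. We show that for
small `δ` the maps in question are uniformly close to similarities at the scales `s ∈ S` (`near`, `near3`). Such maps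
are limits of diffeomorphisms (`MP_6db3ee_gt.CoarselyAffine` of the library): average over balls of radius `s ∈ S`.
-/

set_option autoImplicit false

open Set Filter Topology Metric Function
open scoped Manifold ContDiff

noncomputable section

namespace Pool.Agent.Results.MP_6db3ee_gt.NearlyEquilateral

/-- `ℝ⁴` -/
abbrev R4 : Type := EuclideanSpace ℝ (Fin 4)

/-- the product `S¹ × S³` -/
abbrev Prod13 : Type := Circle × Metric.sphere (0 : R4) 1

/-- the twisted product: the unit sphere bundle of the sum of the Moebius line bundle over the
circle (the line over `p` consists of the `z` with `z ^ 2 = |z| ^ 2 p`) and a trivial bundle of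
rank three -/
abbrev Twisted13 : Type := {p : ℂ × ℂ × EuclideanSpace ℝ (Fin 3) //
  ‖p.1‖ = 1 ∧ p.2.1 ^ 2 = ((‖p.2.1‖ ^ 2 : ℝ) : ℂ) * p.1 ∧ ‖p.2.1‖ ^ 2 + ‖p.2.2‖ ^ 2 = 1}

/-- both spaces are homeomorphic to `S¹ × S³`, or both are homeomorphic to `S¹ ×~ S³` -/
def SameModel (M N : Type) [TopologicalSpace M] [TopologicalSpace N] : Prop :=
  (Nonempty (M ≃ₜ Prod13) ∧ Nonempty (N ≃ₜ Prod13)) ∨ (Nonempty (M ≃ₜ Twisted13) ∧ Nonempty (N ≃ₜ Twisted13))

/-- the set of scales contains arbitrarily small positive numbers -/
def SmallScales (S : Set ℝ) : Prop := ∀ δ : ℝ, 0 < δ → ∃ s ∈ S, 0 < s ∧ s < δ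

section defs

variable {M N : Type} [TopologicalSpace M] [TopologicalSpace N] {m k : ℕ}

/-- `f` is a local diffeomorphism at `x` (of class `C^∞`, with smooth inverse) -/
def LocDiff [ChartedSpace R4 M] [ChartedSpace R4 N] (f : M → N) (x : M) : Prop :=
  IsLocalDiffeomorphAt (𝓡 4) (𝓡 4) ∞ f x

/-- `e` is a smooth immersion at `x`: in a smooth parametrization `A` of a neighbourhood of `x = A 0` (a local
diffeomorphism at `0`) it is smooth near `0` with an injective derivative at `0`. -/
def IsImmersed [ChartedSpace R4 M] (e : M → EuclideanSpace ℝ (Fin m)) (x : M) : Prop :=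
  ∃ A : R4 → M, A 0 = x ∧ LocDiff A 0 ∧
    (∀ᶠ z in 𝓝 (0 : R4), ContDiffAt ℝ ∞ (fun z => e (A z)) z) ∧ Injective (fderiv ℝ (fun z => e (A z)) 0)

/-- `e` is a continuous injective immersion -/
def IsEmb [ChartedSpace R4 M] (e : M → EuclideanSpace ℝ (Fin m)) : Prop :=
  Continuous e ∧ Injective e ∧ ∀ x, IsImmersed e x

/-- `g` has a right homotopy inverse -/
def HasRightHomotopyInverse (g : C(M, N)) : Prop := ∃ r : C(N, M), (g.comp r).Homotopic (ContinuousMap.id N)

/-- The images of small equilateral triangles are nearly equilateral: there are a neighbourhood `U` of `x`, `r > 0` and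
`τ > 0` such that for all `s ∈ S` with `0 < s < r` and all `u`, `v`, `w ∈ U` such that the distances `‖e u - e v‖`,
`‖e u - e w‖` and `‖e v - e w‖` differ from `s` by at most `τ s`, one has `‖f u - f v‖ < (1 + δ) ‖f u - f w‖`. -/
def NearlyEquilateralAt (e : M → EuclideanSpace ℝ (Fin m)) (f : M → EuclideanSpace ℝ (Fin k)) (S : Set ℝ) (δ : ℝ)
    (x : M) : Prop :=
  ∃ U ∈ 𝓝 x, ∃ r : ℝ, 0 < r ∧ ∃ τ : ℝ, 0 < τ ∧ ∀ s ∈ S, 0 < s → s < r → ∀ u ∈ U, ∀ v ∈ U, ∀ w ∈ U,
    |‖e u - e v‖ - s| ≤ τ * s → |‖e u - e w‖ - s| ≤ τ * s → |‖e v - e w‖ - s| ≤ τ * s →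
      ‖f u - f v‖ < (1 + δ) * ‖f u - f w‖

end defs

/-- There is `δ > 0` such that all continuous maps with a right homotopy inverse between smooth 4-manifolds
homeomorphic to `S¹ × S³` (or to the twisted product), which at every point are local diffeomorphisms or map the small
equilateral triangles with sides in `S` to nearly equilateral ones, up to the factor `1 + δ`, are uniform limits of
diffeomorphisms. -/
theorem result : ∃ δ : ℝ, 0 < δ ∧ ∀ (M N : Type) [TopologicalSpace M] [TopologicalSpace N]
    [ChartedSpace R4 M] [ChartedSpace R4 N] [IsManifold (𝓡 4) ∞ M] [IsManifold (𝓡 4) ∞ N] (_ : SameModel M N)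
    -- the maps which measure distances in `M` and `N`, and the set of scales
    (m k : ℕ) (e : M → EuclideanSpace ℝ (Fin m)) (_ : IsEmb e) (j : N → EuclideanSpace ℝ (Fin k)) (_ : IsEmb j)
    (S : Set ℝ) (_ : SmallScales S)
    -- the map `g`
    (g : C(M, N)) (_ : HasRightHomotopyInverse g)
    (_ : ∀ x, LocDiff g x ∨ NearlyEquilateralAt e (fun x => j (g x)) S δ x)
    -- a neighbourhood of the set of the bad points
    (O : Set M) (_ : IsOpen O) (_ : ∀ x, ¬ LocDiff g x → x ∈ O) (ε : ℝ) (_ : 0 < ε),
    ∃ Φ : Diffeomorph (𝓡 4) (𝓡 4) M N ∞, (∀ x, ‖j (Φ x) - j (g x)‖ < ε) ∧ ∀ x, x ∉ O → Φ x = g x := by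
  obtain ⟨δ, hδ, H⟩ := Pool.Agent.H33.NC.cs_of_equi 4 (by norm_num) (ε := 1 / 4) (by norm_num)
  refine ⟨δ, hδ, ?_⟩
  intro M N _ _ _ _ _ _ hMN m k e he j hj S hS g hg hc O hO hbad ε hε
  obtain ⟨he, hei, he'⟩ := he
  obtain ⟨hj, hji, hj'⟩ := hj
  obtain ⟨r, hr⟩ := hg
  have hM : T2Space M ∧ CompactSpace M ∧ ConnectedSpace M ∧ T2Space N ∧ CompactSpace N := by
    rcases hMN with ⟨⟨a⟩, ⟨b⟩⟩ | ⟨⟨a⟩, ⟨b⟩⟩
    · have := Pool.Agent.H865_cl.p13_conn
      exact ⟨a.symm.t2Space, a.symm.compactSpace, a.symm.surjective.connectedSpace a.symm.continuous,
        b.symm.t2Space, b.symm.compactSpace⟩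
    · have := Pool.Agent.H865_cl.t13_conn
      have := Pool.Agent.H865_cl.t13_compact
      exact ⟨a.symm.t2Space, a.symm.compactSpace, a.symm.surjective.connectedSpace a.symm.continuous,
        b.symm.t2Space, b.symm.compactSpace⟩
  obtain ⟨h1, h2, h3, h4, h5⟩ := hM
  refine Pool.Agent.H865_cl.closed_main 3 m k M N e he hei he' j hj hji hj' g r hr S hS (fun x hx => ?_) O hO hbad ε hε
  rw [Pool.Agent.H865_small.const_four]
  rcases hc x with h | h
  · exact absurd h hx
  · have h6 := H m k M N e j g x S (he' x) (hj' (g x)) g.continuous.continuousAt h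
    refine ⟨1 / 4 * (√2 + 1 / 4 / 2), ?_, Or.inr (Or.inl ⟨1 / 4, by norm_num, le_rfl, h6⟩)⟩
    have h7 : √2 < 3 / 2 := by
      rw [Real.sqrt_lt' (by norm_num)]
      norm_num
    have h8 := Real.pi_gt_three
    linarith

end Pool.Agent.Results.MP_6db3ee_gt.NearlyEquilateral
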