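import Pool.Agent.H27.Tgt.Main

/-!
# MP_6db3ee_gt, Q1: immersions of punctured 4-manifolds in `S¹ × S³` and in the twisted product

Let `N` be `S¹ × S³` or the twisted product and let `M` be a closed connected smooth 4-manifold.
Let `G` be an immersion in `N` (a local diffeomorphism) of the complement of finitely many disjoint
smooth closed balls `B_i` of `M`. (If `M` is homeomorphic to `N` there are such immersions, already
for one ball, by the Smale-Hirsch theorem.) The question is whether `G` can be changed on collars of
the `∂B_i` and extended to an immersion of the whole of `M`, that is, to a covering `M → N`.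

The theorem: this is so, and hence `M` is diffeomorphic to `N` (or to `S¹ × S³`, if `N` is the
twisted product), if near the boundary of each ball `B_i` the immersion `G` can be joined with an
immersion of the ball by a regular homotopy without *pinching*. The regular homotopy may be given in
the universal covering of `N` (the pinching is then only tested there), or in any other manifold `W`
with a local diffeomorphism to `N`.

Here a regular homotopy is a smooth family `F_t`, `0 ≤ t ≤ 1`, of maps `ℝ⁴ → W` which are local
diffeomorphisms at the points of the unit sphere, `F_0` being a local diffeomorphism at all points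
of the closed unit ball, for example a coordinate ball; so the restrictions of the `F_t` to the
sphere are cooriented immersions. Two sheets of such an immersion, at points `x ≠ y` of the sphere
with `F_t(x) = F_t(y)`, may intersect transversally, or be tangent with equal coorientations, or be
tangent with opposite coorientations. All this is allowed, except for the last possibility in the
case that no curve in the first sheet leaves the second sheet to its outer side to second order
(`Pinching`). If the first sheet is the graph of `f` and the second the graph of `g`, locally over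
the common tangent space, and the inner sides are the points below the graph of `f` and above the
graph of `g`, then this means that the Hessian of `f - g` is positive semidefinite. In a generic
regular homotopy this happens at the inverse self-tangencies of index zero only: the sheets touch
from their inner sides, as when a neck of an immersed ball is pinched. So exotic copies of
`S¹ × S³`, or of the twisted product, could only arise by pinching.

The method: the set of the `t` for which the germ of `F_t` along the sphere extends to an immersion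
of the ball in `W` contains a neighbourhood of uniform size of each of its points. To see this, a
collar of uniform width is lifted to the immersed ball by a flow. At the smallest depth at which two
sheets of the lifted collar touch there are no points near the point of contact which belong to the
outer sides of both, and for small depths this contradicts the hypothesis, by compactness. So the
lifted collar is embedded, and can be straightened. The immersed balls at the ends of the homotopies
are glued to `G`. The finite coverings of `S¹ × S³` and of the twisted product are known.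
-/

set_option autoImplicit false

open Set Filter Topology Metric Function
open scoped Manifold ContDiff RealInnerProductSpace

noncomputable section

namespace Pool.Agent.Results.MP_6db3ee_gt.PuncturedImmersions

/-- `ℝ⁴` -/
abbrev R4 : Type := EuclideanSpace ℝ (Fin 4)

/-- the unit sphere of `ℝ⁴` -/
abbrev S3 : Type := sphere (0 : R4) 1

/-- the reflection `(x₁, x₂, x₃, x₄) ↦ (-x₁, x₂, x₃, x₄)` of `ℝ⁴` -/
def refl4 (x : R4) : R4 := (ℝ ∙ (EuclideanSpace.single (0 : Fin 4) (1 : ℝ)))ᗮ.reflection x

theorem refl4_mem (x : S3) : refl4 x ∈ sphere (0 : R4) 1 := by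
  unfold refl4
  rw [mem_sphere_zero_iff_norm, LinearIsometryEquiv.norm_map]
  exact mem_sphere_zero_iff_norm.1 x.2

/-- the reflection `(x₁, x₂, x₃, x₄) ↦ (-x₁, x₂, x₃, x₄)` of the 3-sphere -/
def refl3 (x : S3) : S3 := ⟨refl4 x, refl4_mem x⟩

/-- `e : ℝ × S³ → N` is a local diffeomorphism -/
def LocDiffProduct {N : Type} [TopologicalSpace N] [ChartedSpace R4 N] (e : ℝ × S3 → N) : Prop :=
  IsLocalDiffeomorph ((𝓘(ℝ, ℝ)).prod (𝓡 3)) (𝓡 4) ∞ e

/-- `N` is, as a smooth manifold, the mapping torus of the involution `ρ` of the 3-sphere: there is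
a local diffeomorphism `e` of `ℝ × S³` onto `N` whose fibres are the orbits of
`(t, x) ↦ (t + 1, ρ x)`. -/
def IsMappingTorus (ρ : S3 → S3) (N : Type) [TopologicalSpace N] [ChartedSpace R4 N] : Prop :=
  ∃ e : ℝ × S3 → N, LocDiffProduct e ∧ Surjective e ∧
    ∀ z w, e z = e w ↔ ∃ k : ℤ, w = (z.1 + k, if Even k then z.2 else ρ z.2)

section defs

variable {M N W : Type} [TopologicalSpace M] [ChartedSpace R4 M]
  [TopologicalSpace N] [ChartedSpace R4 N] [TopologicalSpace W] [ChartedSpace R4 W]

/-- `f` is a local diffeomorphism at `x` -/
def LocDiff (f : M → N) (x : M) : Prop := IsLocalDiffeomorphAt (𝓡 4) (𝓡 4) ∞ f x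

/-- `F` is smooth, as a map `ℝ × ℝ⁴ → W` -/
def SmoothFamily (F : ℝ → R4 → W) : Prop :=
  ContMDiff 𝓘(ℝ, ℝ × R4) (𝓡 4) ∞ fun p : ℝ × R4 => F p.1 p.2

/-- `F` is a regular homotopy of the cooriented unit sphere in the 4-manifold `W`: `F` is smooth and
`F t` is a local diffeomorphism at the points of the unit sphere (`0 ≤ t ≤ 1`), and `F 0` is a local
diffeomorphism at all points of the closed unit ball. -/
structure RegularHomotopy (F : ℝ → R4 → W) : Prop where
  smooth : SmoothFamily F
  immersed : ∀ t ∈ Icc (0 : ℝ) 1, ∀ x, ‖x‖ = 1 → LocDiff (F t) x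
  start : ∀ x, ‖x‖ ≤ 1 → LocDiff (F 0) x

/-- `α` and `β` are smooth curves (near `0`) through `x` and `y` with `f (α s) = f (β s)` -/
structure CommonCurve (f : R4 → W) (x y : R4) (α β : ℝ → R4) : Prop where
  smooth_left : ContDiffAt ℝ ∞ α 0
  smooth_right : ContDiffAt ℝ ∞ β 0
  left : α 0 = x
  right : β 0 = y
  common : ∀ᶠ s in 𝓝 0, f (α s) = f (β s)

/-- The sheets of `f` at the points `x`, `y` of the unit sphere are tangent with opposite
coorientations: no common curve points to the outer side of both (to first order). -/
def InverseTangent (f : R4 → W) (x y : R4) : Prop :=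
  ∀ α β, CommonCurve f x y α β → 0 < deriv (fun s => ‖α s‖ ^ 2) 0 →
    deriv (fun s => ‖β s‖ ^ 2) 0 ≤ 0

/-- No curve in the sheet of `f` at `x` (the image of the unit sphere near `x`) leaves the sheet at
`y` to its outer side, to second order. -/
def StaysInside (f : R4 → W) (x y : R4) : Prop :=
  ∀ α β, CommonCurve f x y α β → (∀ᶠ s in 𝓝 0, ‖α s‖ = 1) →
    deriv (deriv fun s => ‖β s‖ ^ 2) 0 ≤ 0

/-- The sheets of `f` at the points `x ≠ y` of the unit sphere pass through the same point, where
they are tangent with opposite coorientations, and touch from their inner sides, to second order. -/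
def Pinching (f : R4 → W) (x y : R4) : Prop :=
  ‖x‖ = 1 ∧ ‖y‖ = 1 ∧ x ≠ y ∧ f x = f y ∧ InverseTangent f x y ∧ StaysInside f x y

/-- The `β i` parametrize disjoint smooth closed balls of `M`. -/
structure Balls {k : ℕ} (β : Fin k → R4 → M) : Prop where
  smooth : ∀ i x, ‖x‖ ≤ 1 → LocDiff (β i) x
  disjoint : ∀ i j x y, ‖x‖ ≤ 1 → ‖y‖ ≤ 1 → β i x = β j y → i = j ∧ x = y

/-- `π` is a local diffeomorphism, `G` is a local diffeomorphism off the balls `β i`, and outside of
the ball `β i`, near its boundary, `G` is the composition of `F i 1` with `π`. -/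
structure ImmersesComplement {k : ℕ} (β : Fin k → R4 → M) (G : M → N) (π : W → N)
    (F : Fin k → ℝ → R4 → W) : Prop where
  local_diffeo : ∀ w, LocDiff π w
  immersed : ∀ y, (∀ i x, ‖x‖ ≤ 1 → β i x ≠ y) → LocDiff G y
  boundary : ∀ i, ∃ a > 0, ∀ x, 1 < ‖x‖ → ‖x‖ < 1 + a → G (β i x) = π (F i 1 x)

end defs

/-- The complement in `M` of finitely many disjoint smooth closed balls has an immersion in `N`
which near the boundaries of the balls lifts to the manifold `W`, immersed in `N` by a local
diffeomorphism, and can there be joined with immersions of the balls by regular homotopies without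
pinching. -/
def HasTameImmersion (M N W : Type) [TopologicalSpace M] [ChartedSpace R4 M] [TopologicalSpace N]
    [ChartedSpace R4 N] [TopologicalSpace W] [ChartedSpace R4 W] : Prop :=
  ∃ (k : ℕ) (β : Fin k → R4 → M) (G : M → N) (π : W → N) (F : Fin k → ℝ → R4 → W),
    Balls β ∧ ImmersesComplement β G π F ∧
      ∀ i, RegularHomotopy (F i) ∧ ∀ t ∈ Icc (0 : ℝ) 1, ∀ x y, ¬Pinching (F i t) x y

/-- `N` is a smooth Hausdorff 4-manifold -/
def IsSmooth (N : Type) [TopologicalSpace N] [ChartedSpace R4 N] : Prop :=
  T2Space N ∧ IsManifold (𝓡 4) ∞ N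

/-- `M` and `N` are diffeomorphic -/
def Diffeomorphic (M N : Type) [TopologicalSpace M] [ChartedSpace R4 M] [TopologicalSpace N]
    [ChartedSpace R4 N] : Prop :=
  Nonempty (Diffeomorph (𝓡 4) (𝓡 4) M N ∞)

theorem refl3_refl3 (x : S3) : refl3 (refl3 x) = x :=
  Subtype.ext (Submodule.reflection_reflection _ _)

theorem refl3_cont : Continuous refl3 := by
  unfold refl3 refl4
  refine Continuous.subtype_mk ?_ _
  exact (LinearIsometryEquiv.continuous _).comp continuous_subtype_val

theorem reg {W : Type} [TopologicalSpace W] [ChartedSpace R4 W] [IsManifold (𝓡 4) ∞ W]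
    {F : ℝ → R4 → W} (hF : RegularHomotopy F)
    (hT : ∀ t ∈ Icc (0 : ℝ) 1, ∀ x y, ¬Pinching (F t) x y) : H27.Tgt.Reg (𝓡 4) F := by
  refine ⟨hF.smooth, fun t ht x hx => H27.Tgt.inj_of_LD (hF.immersed t ht x hx),
    fun x hx => H27.Tgt.inj_of_LD (hF.start x hx), fun t ht x y hx hy hxy he => ?_⟩
  by_contra hcon
  refine hT t ht x y ⟨hx, hy, hxy, he, fun α β h h1 => ?_, fun α β h h1 => ?_⟩
  · by_contra h2
    exact hcon ⟨α, β, h.smooth_left, h.smooth_right, h.left, h.right, h.common,
      Or.inl ⟨h1, not_le.1 h2⟩⟩
  · by_contra h2
    exact hcon ⟨α, β, h.smooth_left, h.smooth_right, h.left, h.right, h.common,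
      Or.inr ⟨h1, not_le.1 h2⟩⟩

theorem compact_torus {ρ : S3 → S3} {N : Type} [TopologicalSpace N] [ChartedSpace R4 N]
    (hN : IsMappingTorus ρ N) : CompactSpace N := by
  obtain ⟨e, he, hs, hf⟩ := hN
  have h1 : e '' (Icc (0:ℝ) 1 ×ˢ univ) = univ := by
    rw [eq_univ_iff_forall]
    intro y
    obtain ⟨⟨t, x⟩, rfl⟩ := hs y
    refine ⟨(t + (-⌊t⌋ : ℤ), if Even (-⌊t⌋) then x else ρ x), ⟨?_, mem_univ _⟩, ?_⟩
    · push_cast
      constructor
      · have := Int.floor_le t
        linarith
      · have := Int.lt_floor_add_one t
        linarith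
    · exact ((hf (t, x) _).2 ⟨-⌊t⌋, rfl⟩).symm
  rw [← isCompact_univ_iff, ← h1]
  exact (isCompact_Icc.prod isCompact_univ).image (IsLocalDiffeomorph.contMDiff he).continuous

theorem covering {M N W : Type} [TopologicalSpace M] [T2Space M] [ChartedSpace R4 M]
    [TopologicalSpace N] [T2Space N] [CompactSpace N] [ChartedSpace R4 N] [IsManifold (𝓡 4) ∞ N]
    [TopologicalSpace W] [T2Space W] [ChartedSpace R4 W] [IsManifold (𝓡 4) ∞ W]
    (h : HasTameImmersion M N W) : ∃ p : C(M, N), IsLocalDiffeomorph (𝓡 4) (𝓡 4) ∞ p := by
  obtain ⟨k, β, G, π, F, hβ, hG, hF⟩ := h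
  obtain ⟨p, hp, -⟩ := H27.Tgt.punctured (n := 4) hG.local_diffeo hβ.smooth hβ.disjoint hG.immersed
    (fun i => reg (hF i).1 (hF i).2) hG.boundary
  have hc : Continuous p := continuous_iff_continuousAt.2 fun y => (hp y).contMDiffAt.continuousAt
  exact ⟨⟨p, hc⟩, hp⟩

/-- Let `N` be `S¹ × S³` and `N'` the twisted product. Let `M` be a closed connected smooth
4-manifold and `W` a smooth Hausdorff 4-manifold. If `HasTameImmersion M N W` then `M` is
diffeomorphic to `N`, and if `HasTameImmersion M N' W` then `M` is diffeomorphic to `N` or to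
`N'`. -/
theorem result (N N' M W : Type)
    [TopologicalSpace N] [ChartedSpace R4 N] (sN : IsSmooth N) (hN : IsMappingTorus id N)
    [TopologicalSpace N'] [ChartedSpace R4 N'] (sN' : IsSmooth N') (hN' : IsMappingTorus refl3 N')
    [TopologicalSpace M] [ChartedSpace R4 M] (sM : IsSmooth M) [CompactSpace M] [ConnectedSpace M]
    [TopologicalSpace W] [ChartedSpace R4 W] (sW : IsSmooth W) :
    (HasTameImmersion M N W → Diffeomorphic M N) ∧
      (HasTameImmersion M N' W → Diffeomorphic M N ∨ Diffeomorphic M N') := by
  obtain ⟨_, _⟩ := sN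
  obtain ⟨_, _⟩ := sN'
  obtain ⟨_, _⟩ := sM
  obtain ⟨_, _⟩ := sW
  have := compact_torus hN
  have := compact_torus hN'
  constructor
  · intro h
    obtain ⟨p, hp⟩ := covering h
    rcases Pool.Agent.V1127.Cm.torus_cover id (fun _ => rfl) continuous_id hN p hp with h1 | h1
    · exact Pool.Agent.V1127.Cm.torus_unique h1 hN
    · exact Pool.Agent.V1127.Cm.torus_unique h1 hN
  · intro h
    obtain ⟨p, hp⟩ := covering h
    rcases Pool.Agent.V1127.Cm.torus_cover refl3 refl3_refl3 refl3_cont hN' p hp with h1 | h1
    · exact Or.inl (Pool.Agent.V1127.Cm.torus_unique h1 hN)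
    · exact Or.inr (Pool.Agent.V1127.Cm.torus_unique h1 hN')

end Pool.Agent.Results.MP_6db3ee_gt.PuncturedImmersions
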