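import Pool.Agent.H33.VO.Transfer
import Pool.Graph.R_pool_sql_team_seeded_620a6dc7.H865_cl.Conn

/-!
# Almost short maps with little loss of volume and smooth structures on `S¹ × S³` and `S¹ ×~ S³`

Let `X` be one of the two topological 4-manifolds `S¹ × S³` and `S¹ ×~ S³` (the twisted product, as the unit sphere
bundle of the sum of the Moebius line bundle and a trivial bundle of rank three), and let `M` and `N` be smooth
4-manifolds homeomorphic to `X`. Let `e : M → ℝᵐ` and `j : N → ℝᵏ` be injective immersions (by the embedding theorem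
of Nash all Riemannian metrics of `M` and `N` are induced by such maps), which measure distances and volumes: `B(y, s)`
is the set of the points `u` of `M` with `|e u - e y| < s`, and the volume of a subset of `M` (or `N`) is the
4-dimensional Hausdorff measure of its image under `e` (or `j`). Let `g : M → N` be a continuous map with a right
homotopy inverse, for example a homeomorphism or a homotopy equivalence. Let `S` be a set of scales which contains
arbitrarily small positive numbers; it may be a sequence which tends to zero arbitrarily fast.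

There is a universal constant `δ > 0` such that the following holds. Suppose that at each point `x` the map `g` is a
local diffeomorphism, or that for all `y` near `x` and all `s ∈ S` small enough there is a factor `κ > 0` (which may
depend on `y` and `s` in any way) such that

* (`κ g` is almost short) `κ |g u - g w| ≤ |u - w| + δ s` for all `u`, `w ∈ B(y, s)`;
* (little loss of volume) `κ⁴ vol (g (B(y, s))) ≥ (1 - δ) vol (B(y, s))`.

Then `g` is a uniform limit of diffeomorphisms from `M` onto `N` which agree with `g` outside any given neighbourhood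
of the set of the points at which `g` is not a local diffeomorphism. In particular `M` and `N` are diffeomorphic.

So a homeomorphism of Riemannian 4-manifolds which increases small distances at most by the factor `1 + δ` and
decreases the volumes of small balls at most by the factor `1 - δ` is a limit of diffeomorphisms. No lower bound for
distances between image points is assumed, and nothing is assumed about the volumes of the images of other sets than
the balls `B(y, s)` with `s ∈ S`. The map need not be Lipschitz: the error `δ s` does not tend to zero with `|u - w|`.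

The proof. Consider a sequence of such maps with constants `δ` tending to zero, rescaled to the scale one, in almost
isometric parametrizations. A limit `G` along an ultrafilter does not increase distances, and the image of the unit
ball under `G` has at least the measure of the ball, because the images of the ball under the maps of the sequence lie
in small neighbourhoods of this image. So `G` preserves the measure of all subsets of the ball. Two disjoint tangent
balls of the same radius around `u` and `w` are mapped into the balls of the same radius around `G u` and `G w`; these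
are disjoint, since otherwise their union has a smaller measure, and so `|G u - G w| ≥ |u - w|` (`isom_of`). So for
small `δ` the maps in question are uniformly close to similarities at the scales `s / 4` with `s ∈ S` (`near_vol`).
Such maps are limits of diffeomorphisms (`MP_6db3ee_gt.CoarselyAffine` of the library): average over small balls.
-/

set_option autoImplicit false

open Set Filter Topology Metric Function MeasureTheory Measure
open scoped Manifold ContDiff ENNReal

noncomputable section

namespace Pool.Agent.Results.MP_6db3ee_gt.ShortWithVolume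

/-- `ℝ⁴` -/
abbrev R4 : Type := EuclideanSpace ℝ (Fin 4)

/-- the product `S¹ × S³` -/
abbrev Prod13 : Type := Circle × Metric.sphere (0 : R4) 1

/-- the twisted product: the unit sphere bundle of the sum of the Moebius line bundle over the
circle (the line over `p` consists of the `z` with `z ^ 2 = |z| ^ 2 p`) and a trivial bundle of
rank three -/
abbrev Twisted13 : Type := {p : ℂ × ℂ × EuclideanSpace ℝ (Fin 3) //
  ‖p.1‖ = 1 ∧ p.2.1 ^ 2 = ((‖p.2.1‖ ^ 2 : ℝ) : ℂ) * p.1 ∧ ‖p.2.1‖ ^ 2 + ‖p.2.2‖ ^ 2 = 1}

/-- both spaces are homeomorphic to `S¹ × S³`, or both are homeomorphic to `S¹ ×~ S³` -/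
def SameModel (M N : Type) [TopologicalSpace M] [TopologicalSpace N] : Prop :=
  (Nonempty (M ≃ₜ Prod13) ∧ Nonempty (N ≃ₜ Prod13)) ∨ (Nonempty (M ≃ₜ Twisted13) ∧ Nonempty (N ≃ₜ Twisted13))

/-- the set of scales contains arbitrarily small positive numbers -/
def SmallScales (S : Set ℝ) : Prop := ∀ δ : ℝ, 0 < δ → ∃ s ∈ S, 0 < s ∧ s < δ

section defs

variable {M N : Type} [TopologicalSpace M] [TopologicalSpace N] {m k : ℕ}

/-- `f` is a local diffeomorphism at `x` (of class `C^∞`, with smooth inverse) -/
def LocDiff [ChartedSpace R4 M] [ChartedSpace R4 N] (f : M → N) (x : M) : Prop :=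
  IsLocalDiffeomorphAt (𝓡 4) (𝓡 4) ∞ f x

/-- `e` is a smooth immersion at `x`: in a smooth parametrization `A` of a neighbourhood of `x = A 0` (a local
diffeomorphism at `0`) it is smooth near `0` with an injective derivative at `0`. -/
def IsImmersed [ChartedSpace R4 M] (e : M → EuclideanSpace ℝ (Fin m)) (x : M) : Prop :=
  ∃ A : R4 → M, A 0 = x ∧ LocDiff A 0 ∧
    (∀ᶠ z in 𝓝 (0 : R4), ContDiffAt ℝ ∞ (fun z => e (A z)) z) ∧ Injective (fderiv ℝ (fun z => e (A z)) 0)

/-- `e` is a continuous injective immersion -/
def IsEmb [ChartedSpace R4 M] (e : M → EuclideanSpace ℝ (Fin m)) : Prop :=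
  Continuous e ∧ Injective e ∧ ∀ x, IsImmersed e x

/-- `g` has a right homotopy inverse -/
def HasRightHomotopyInverse (g : C(M, N)) : Prop := ∃ r : C(N, M), (g.comp r).Homotopic (ContinuousMap.id N)

/-- the ball of radius `s` around `y`, for the distance `‖e u - e y‖` -/
def B (e : M → EuclideanSpace ℝ (Fin m)) (y : M) (s : ℝ) : Set M := {u | ‖e u - e y‖ < s}

/-- There are a neighbourhood `U` of `x` and `r > 0` such that for all `y ∈ U` and all `s ∈ S` with `0 < s < r` there
is `κ > 0` such that `κ ‖f u - f w‖ ≤ ‖e u - e w‖ + δ s` for all `u`, `w` in the ball `B e y s` and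
`κ⁴ vol (f (B e y s)) ≥ (1 - δ) vol (e (B e y s))`, where `vol` is the 4-dimensional Hausdorff measure. -/
def ShortWithVolumeAt (e : M → EuclideanSpace ℝ (Fin m)) (f : M → EuclideanSpace ℝ (Fin k)) (S : Set ℝ) (δ : ℝ)
    (x : M) : Prop :=
  ∃ U ∈ 𝓝 x, ∃ r : ℝ, 0 < r ∧ ∀ y ∈ U, ∀ s ∈ S, 0 < s → s < r → ∃ κ : ℝ, 0 < κ ∧
    (∀ u ∈ B e y s, ∀ w ∈ B e y s, κ * ‖f u - f w‖ ≤ ‖e u - e w‖ + δ * s) ∧
    ENNReal.ofReal (1 - δ) * μH[4] (e '' B e y s) ≤ ENNReal.ofReal (κ ^ 4) * μH[4] (f '' B e y s)

end defs

/-- There is `δ > 0` such that all continuous maps with a right homotopy inverse between smooth 4-manifolds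
homeomorphic to `S¹ × S³` (or to the twisted product), which at every point are local diffeomorphisms or, up to
factors and at the scales in `S`, almost short with little loss of the volume of balls, are uniform limits of
diffeomorphisms. -/
theorem result : ∃ δ : ℝ, 0 < δ ∧ ∀ (M N : Type) [TopologicalSpace M] [TopologicalSpace N]
    [ChartedSpace R4 M] [ChartedSpace R4 N] [IsManifold (𝓡 4) ∞ M] [IsManifold (𝓡 4) ∞ N] (_ : SameModel M N)
    -- the maps which measure distances and volumes in `M` and `N`, and the set of scales
    (m k : ℕ) (e : M → EuclideanSpace ℝ (Fin m)) (_ : IsEmb e) (j : N → EuclideanSpace ℝ (Fin k)) (_ : IsEmb j)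
    (S : Set ℝ) (_ : SmallScales S)
    -- the map `g`
    (g : C(M, N)) (_ : HasRightHomotopyInverse g)
    (_ : ∀ x, LocDiff g x ∨ ShortWithVolumeAt e (fun x => j (g x)) S δ x)
    -- a neighbourhood of the set of the bad points
    (O : Set M) (_ : IsOpen O) (_ : ∀ x, ¬ LocDiff g x → x ∈ O) (ε : ℝ) (_ : 0 < ε),
    ∃ Φ : Diffeomorph (𝓡 4) (𝓡 4) M N ∞, (∀ x, ‖j (Φ x) - j (g x)‖ < ε) ∧ ∀ x, x ∉ O → Φ x = g x := by
  obtain ⟨δ, hδ, H⟩ := Pool.Agent.H33.VO.cs_of_vol 4 (ε := 1 / 4) (by norm_num)
  refine ⟨δ, hδ, ?_⟩
  intro M N _ _ _ _ _ _ hMN m k e he j hj S hS g hg hc O hO hbad ε hε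
  obtain ⟨he, hei, he'⟩ := he
  obtain ⟨hj, hji, hj'⟩ := hj
  obtain ⟨r, hr⟩ := hg
  have hM : T2Space M ∧ CompactSpace M ∧ ConnectedSpace M ∧ T2Space N ∧ CompactSpace N := by
    rcases hMN with ⟨⟨a⟩, ⟨b⟩⟩ | ⟨⟨a⟩, ⟨b⟩⟩
    · have := Pool.Agent.H865_cl.p13_conn
      exact ⟨a.symm.t2Space, a.symm.compactSpace, a.symm.surjective.connectedSpace a.symm.continuous,
        b.symm.t2Space, b.symm.compactSpace⟩
    · have := Pool.Agent.H865_cl.t13_conn
      have := Pool.Agent.H865_cl.t13_compact
      exact ⟨a.symm.t2Space, a.symm.compactSpace, a.symm.surjective.connectedSpace a.symm.continuous,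
        b.symm.t2Space, b.symm.compactSpace⟩
  obtain ⟨h1, h2, h3, h4, h5⟩ := hM
  have hS' : ∀ δ : ℝ, 0 < δ → ∃ s ∈ {t : ℝ | 4 * t ∈ S}, 0 < s ∧ s < δ := by
    intro δ hδ
    obtain ⟨s, hs, hs0, hs1⟩ := hS δ hδ
    refine ⟨s / 4, ?_, by positivity, by linarith⟩
    show 4 * (s / 4) ∈ S
    rw [mul_div_cancel₀ s (by norm_num : (4 : ℝ) ≠ 0)]
    exact hs
  have hemb : IsClosedEmbedding e := he.isClosedEmbedding hei
  refine Pool.Agent.H865_cl.closed_main 3 m k M N e he hei he' j hj hji hj' g r hr {t | 4 * t ∈ S} hS'
    (fun x hx => ?_) O hO hbad ε hε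
  rw [Pool.Agent.H865_small.const_four]
  rcases hc x with h | h
  · exact absurd h hx
  · have h6 := H m k M N e j g x S (he' x) (hj' (g x)) g.continuous.continuousAt (by
      intro V hV
      rw [hemb.isInducing.nhds_eq_comap, Filter.mem_comap] at hV
      obtain ⟨W, hW, hWV⟩ := hV
      obtain ⟨η, hη, hηW⟩ := Metric.mem_nhds_iff.1 hW
      exact ⟨η, hη, fun u hu => hWV (hηW (mem_ball_iff_norm.2 hu))⟩) (by
      obtain ⟨U, hU, r, hr, h⟩ := h
      refine ⟨U, hU, r, hr, fun y hy s hs hs0 hsr => ?_⟩
      obtain ⟨κ, hκ, h7, h8⟩ := h y hy s hs hs0 hsr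
      refine ⟨κ, hκ, fun u w hu hw => h7 u hu w hw, ?_⟩
      rw [Nat.cast_ofNat]
      exact h8)
    refine ⟨1 / 4 * (√2 + 1 / 4 / 2), ?_, Or.inr (Or.inl ⟨1 / 4, by norm_num, le_rfl, h6⟩)⟩
    have h7 : √2 < 3 / 2 := by
      rw [Real.sqrt_lt' (by norm_num)]
      norm_num
    have h8 := Real.pi_gt_three
    linarith

end Pool.Agent.Results.MP_6db3ee_gt.ShortWithVolume
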